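import Pool.Agent.Helper78.DT.Goals2

namespace Pool.Agent.Helper8.DT

open Pool.Agent.Helper78.DT

theorem npr : NprStmt := by
  intro X hX
  obtain ⟨p, hp, hlt, hle⟩ := Nat.exists_prime_lt_and_le_two_mul X (by omega)
  unfold np
  cases h : (List.range (2 * X + 1)).find? (fun p => decide (X ≤ p ∧ p.Prime)) with
  | none =>
    exfalso
    rw [List.find?_eq_none] at h
    have := h p (List.mem_range.mpr (by omega))
    apply this
    simp only [decide_eq_true_eq]
    exact ⟨hlt.le, hp⟩
  | some q =>
    have h1 := List.find?_some h
    have h2 := List.mem_of_find?_eq_some h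
    simp only [decide_eq_true_eq] at h1
    rw [List.mem_range] at h2
    simp only [Option.getD_some]
    exact ⟨h1.2, h1.1, by omega⟩

theorem cpw_eq : CpwStmt := by
  intro cap b n hcap hb
  induction n with
  | zero => simp [cpw, hcap]
  | succ n ih =>
    unfold cpw at ih ⊢
    rw [Function.iterate_succ_apply', ih, pow_succ]
    rcases le_total (b ^ n) cap with h | h
    · rw [min_eq_right h]
    · rw [min_eq_left h]
      have h1 : cap ≤ cap * b := Nat.le_mul_of_pos_right _ hb
      have h2 : cap ≤ b ^ n * b := h.trans (Nat.le_mul_of_pos_right _ hb)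
      rw [min_eq_left h1, min_eq_left h2]

end Pool.Agent.Helper8.DT
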