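import Pool.Agent.Helper78.DT.Goals3

namespace Pool.Agent.Helper8.DT

open Pool.Agent.Helper78.DT Pool.Agent.Helper81.CC

theorem res_acc (hHis : HisStmt) : ResStmt := by
  intro α _ A x W t h r hW
  have hends : ∀ i a v, A.Ends x r i a v ↔ (a = hist A x i (cf r) ∧ A.act (x, i, a) = v) := by
    intro i a v
    have h1 := (hHis α A x i).2 (cf r) a
    constructor
    · rintro ⟨h2, h3, h4⟩
      exact ⟨h1.mp ⟨h2, by rw [h3]; exact h4⟩, h3⟩
    · rintro ⟨h2, h3⟩
      obtain ⟨h4, h5⟩ := h1.mpr h2
      exact ⟨h4, h3, by rw [← h3]; exact h5⟩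
  have hlt : ∀ i, A.act (x, i, hist A x i (cf r)) < 3 := fun i =>
    (((hHis α A x i).2 (cf r) _).mpr rfl).2
  have hlen : ∀ i, (hist A x i (cf r)).length + 1 ≤ A.w x := fun i =>
    (hHis α A x i).1 _ (fun k hk => ((((hHis α A x i).2 (cf r) _).mpr rfl).1 k hk).1)
  have hokh : ∀ i, okh A x W 0 t h i (hist A x i (cf r)) = true := by
    intro i
    unfold okh
    simp only [List.range_zero, List.all_nil, Bool.and_true, decide_eq_true_eq]
    have h1 : (rd A x i (hist A x i (cf r))).length ≤ (hist A x i (cf r)).length := by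
      unfold rd
      refine (List.dedup_sublist _).length_le.trans ((List.length_filter_le _ _).trans ?_)
      simp
    have := hlen i
    omega
  have hout : ∀ i, out A x W 0 t h (cf r) i = A.act (x, i, hist A x i (cf r)) := by
    intro i
    unfold out
    rw [if_pos (hokh i)]
  unfold res
  cases hf : (List.range (A.T x)).find? (fun i => decide (out A x W 0 t h (cf r) i ≠ 0)) with
  | none =>
    simp only [Bool.false_eq_true, false_iff]
    rintro ⟨i, hi, ⟨a, ha⟩, -⟩
    rw [List.find?_eq_none] at hf
    apply hf i (List.mem_range.mpr hi)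
    rw [hends] at ha
    rw [decide_eq_true_eq, hout, ← ha.1, ha.2]
    decide
  | some i =>
    rw [List.find?_range_eq_some] at hf
    obtain ⟨h1, h2, h3⟩ := hf
    rw [List.mem_range] at h2
    rw [decide_eq_true_eq] at h1
    simp only [decide_eq_true_eq]
    have h3' : ∀ j < i, out A x W 0 t h (cf r) j = 0 := by
      intro j hj
      have := h3 j hj
      simpa using this
    constructor
    · intro h4
      refine ⟨i, h2, ⟨_, (hends i _ 2).mpr ⟨rfl, ?_⟩⟩, ?_⟩
      · rw [← hout]; exact h4
      · intro j hj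
        exact ⟨_, (hends j _ 0).mpr ⟨rfl, by rw [← hout]; exact h3' j hj⟩⟩
    · rintro ⟨i', hi', ⟨a, ha⟩, hb⟩
      rw [hends] at ha
      have h5 : out A x W 0 t h (cf r) i' = 2 := by
        rw [hout, ← ha.1, ha.2]
      have h6 : ∀ j < i', out A x W 0 t h (cf r) j = 0 := by
        intro j hj
        obtain ⟨a', ha'⟩ := hb j hj
        rw [hends] at ha'
        rw [hout, ← ha'.1, ha'.2]
      rcases lt_trichotomy i i' with h7 | h7 | h7
      · exact absurd (h6 i h7) h1
      · rw [h7]; exact h5
      · have := h3' i' h7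
        rw [h5] at this
        exact absurd this (by decide)

end Pool.Agent.Helper8.DT
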